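import Pool.Agent.K1H4.SC.Tr

/-!
# Base change of the geometrically pro-`ℓ` fundamental group and of sections
-/

set_option autoImplicit false

namespace Pool.Agent.K1H4.SC

open Pool.Agent.Y157.PS Polynomial

/-- elements algebraic over a subfield of a valuation ring are in the valuation ring -/
theorem val_alg {k N : Type} [Field k] [Field N] [Algebra k N] (W : ValuationSubring N)
    (h : ∀ c : k, algebraMap k N c ∈ W) (z : N) (hz : IsAlgebraic k z) : z ∈ W := by
  obtain ⟨p, hp, hpz⟩ := hz.isIntegral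
  let g : k →+* W :=
    { toFun := fun a => ⟨algebraMap k N a, h a⟩
      map_one' := Subtype.ext (by simp)
      map_mul' := fun a b => Subtype.ext (by simp)
      map_zero' := Subtype.ext (by simp)
      map_add' := fun a b => Subtype.ext (by simp) }
  have hint : IsIntegral W z := by
    refine ⟨p.map g, hp.map g, ?_⟩
    rw [eval₂_map]
    exact hpz
  obtain ⟨w, hw⟩ := (IsIntegrallyClosed.isIntegral_iff (R := W)).1 hint
  rw [← hw]
  exact w.2

section base

variable {k k' F₀ Ω : Type} [Field k] [Field k'] [Field F₀] [Field Ω] [Algebra k k']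
  [Algebra F₀ Ω] [Algebra k Ω] [Algebra k' Ω] [IsScalarTower k k' Ω]

/-- `F` is the compositum of `k'` and `F₀` in `Ω` -/
structure Comp (F₀ : Type) [Field F₀] [Algebra F₀ Ω] (F : IntermediateField k' Ω) : Prop where
  inc : ∀ c : F₀, algebraMap F₀ Ω c ∈ F
  gen : ∀ E : Subfield Ω, (∀ c : k', algebraMap k' Ω c ∈ E) → (∀ c : F₀, algebraMap F₀ Ω c ∈ E) →
    ∀ z ∈ F, z ∈ E

theorem cl_iff [Algebra.IsAlgebraic k k'] (z : Ω) :
    z ∈ algebraicClosure k Ω ↔ z ∈ algebraicClosure k' Ω := by
  rw [mem_algebraicClosure_iff, mem_algebraicClosure_iff]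
  constructor
  · intro h
    exact h.tower_top k'
  · intro h
    exact h.restrictScalars k

theorem emb_cl [Algebra.IsAlgebraic k k'] (c : k') : algebraMap k' Ω c ∈ algebraicClosure k Ω := by
  rw [cl_iff (k' := k')]
  exact (algebraicClosure k' Ω).algebraMap_mem c

theorem geom_iff [Algebra.IsAlgebraic k k'] {F : IntermediateField k' Ω} (hF : Comp F₀ F) (z : Ω) :
    z ∈ geomF k F₀ Ω ↔ z ∈ geomF k' F Ω := by
  constructor
  · intro h
    have h1 : Subfield.closure (Set.range (algebraMap F₀ Ω) ∪ (algebraicClosure k Ω : Set Ω)) ≤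
        (geomF k' F Ω).toSubfield := by
      rw [Subfield.closure_le]
      rintro w (⟨c, rfl⟩ | hw)
      · exact (geomF k' F Ω).algebraMap_mem ⟨_, hF.inc c⟩
      · exact IntermediateField.subset_adjoin _ _ ((cl_iff w).1 hw)
    exact h1 h
  · intro h
    have h1 : Subfield.closure (Set.range (algebraMap F Ω) ∪ (algebraicClosure k' Ω : Set Ω)) ≤
        (geomF k F₀ Ω).toSubfield := by
      rw [Subfield.closure_le]
      rintro w (⟨c, rfl⟩ | hw)
      · refine hF.gen _ (fun c => ?_) (fun c => ?_) _ c.2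
        · exact IntermediateField.subset_adjoin _ _ (emb_cl c)
        · exact (geomF k F₀ Ω).algebraMap_mem c
      · exact IntermediateField.subset_adjoin _ _ ((cl_iff w).2 hw)
    exact h1 h

theorem pro_iff [Algebra.IsAlgebraic k k'] {F : IntermediateField k' Ω} (hF : Comp F₀ F) (ℓ : ℕ)
    (z : Ω) : z ∈ geomPro ℓ k F₀ Ω ↔ z ∈ geomPro ℓ k' F Ω := by
  have hs : Same (geomF k F₀ Ω) (geomF k' F Ω) Ω := by
    intro w
    constructor
    · rintro ⟨a, rfl⟩
      exact ⟨⟨_, (geom_iff hF _).1 a.2⟩, rfl⟩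
    · rintro ⟨a, rfl⟩
      exact ⟨⟨_, (geom_iff hF _).2 a.2⟩, rfl⟩
  have hκ : ∀ W : ValuationSubring Ω, (∀ c : k', algebraMap k' Ω c ∈ W) ↔
      ∀ c : k, algebraMap k Ω c ∈ W := by
    intro W
    constructor
    · intro h c
      rw [IsScalarTower.algebraMap_apply k k' Ω]
      exact h _
    · intro h c
      exact val_alg W h _ ((mem_algebraicClosure_iff).1 (emb_cl c))
  exact max_iff hs hκ ℓ z

end base

/-! ### continuity -/

theorem cont_mem {G F N : Type} [Group G] [TopologicalSpace G] [IsTopologicalGroup G]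
    [Field F] [Field N] [Algebra F N] [Algebra.IsAlgebraic F N] (φ : G →* (N ≃ₐ[F] N))
    (h : Continuous φ) (z : N) : {g | φ g z = z} ∈ nhds (1 : G) := by
  have h1 := stabilizer_isOpen_of_isIntegral (K := F) (L := N) z
  have h2 := h1.preimage h
  refine h2.mem_nhds ?_
  show φ 1 ∈ MulAction.stabilizer (N ≃ₐ[F] N) z
  rw [map_one]
  exact one_mem _

theorem cont_of {G F N : Type} [Group G] [TopologicalSpace G] [IsTopologicalGroup G]
    [Field F] [Field N] [Algebra F N] (φ : G →* (N ≃ₐ[F] N))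
    (h : ∀ z : N, {g | φ g z = z} ∈ nhds (1 : G)) : Continuous φ := by
  refine continuous_of_continuousAt_one φ ?_
  intro U hU
  rw [map_one, krullTopology_mem_nhds_one_iff] at hU
  obtain ⟨E, hE, hEU⟩ := hU
  obtain ⟨T, hT⟩ := (inferInstance : Module.Finite F E).fg_top
  have h1 : (⋂ t ∈ T, {g | φ g (t : N) = t}) ∈ nhds (1 : G) :=
    (Filter.biInter_finset_mem T).2 fun t _ => h t
  show φ ⁻¹' U ∈ nhds (1 : G)
  refine Filter.mem_of_superset h1 fun g hg => hEU ?_
  have h2 : ∀ w : E, φ g (w : N) = w := by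
    intro w
    have hw : w ∈ Submodule.span F (T : Set E) := by rw [hT]; trivial
    induction hw using Submodule.span_induction with
    | mem x hx => exact (Set.mem_iInter₂.1 hg) x hx
    | zero => simp
    | add x y _ _ hx hy =>
      show φ g ((x : N) + (y : N)) = (x : N) + (y : N)
      rw [map_add, hx, hy]
    | smul a x _ hx =>
      show φ g (a • (x : N)) = a • (x : N)
      rw [map_smul, hx]
  rw [SetLike.mem_coe, IntermediateField.mem_fixingSubgroup_iff]
  intro w hw
  exact h2 ⟨w, hw⟩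

end Pool.Agent.K1H4.SC
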