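import Pool.Agent.K1H4.SC.Base
import Pool.Agent.V11235.SL.Uni

/-!
# Base change of sections
-/

set_option autoImplicit false
set_option linter.overlappingInstances false

namespace Pool.Agent.K1H4.SC

open Pool.Agent.Y157.PS

section gal

variable {k k' Ω : Type} [Field k] [Field k'] [Field Ω] [Algebra k k'] [Algebra k Ω]
  [Algebra k' Ω] [IsScalarTower k k' Ω] [Algebra.IsAlgebraic k k']

variable (k k' Ω) in
/-- the two algebraic closures are equal -/
def eps : algebraicClosure k Ω ≃+* algebraicClosure k' Ω where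
  toFun z := ⟨z, (cl_iff _).1 z.2⟩
  invFun z := ⟨z, (cl_iff _).2 z.2⟩
  left_inv _ := rfl
  right_inv _ := rfl
  map_mul' _ _ := rfl
  map_add' _ _ := rfl

variable (k k' Ω) in
/-- `G_{k'} → G_k` -/
def res : (algebraicClosure k' Ω ≃ₐ[k'] algebraicClosure k' Ω) →*
    (algebraicClosure k Ω ≃ₐ[k] algebraicClosure k Ω) where
  toFun σ := AlgEquiv.ofRingEquiv
    (f := ((eps k k' Ω).trans σ.toRingEquiv).trans (eps k k' Ω).symm) (by
      intro c
      apply Subtype.ext
      have h1 : eps k k' Ω (algebraMap k (algebraicClosure k Ω) c) =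
          algebraMap k' (algebraicClosure k' Ω) (algebraMap k k' c) :=
        Subtype.ext (IsScalarTower.algebraMap_apply k k' Ω c)
      show ((σ (eps k k' Ω (algebraMap k (algebraicClosure k Ω) c)) : algebraicClosure k' Ω) : Ω) = _
      rw [h1, AlgEquiv.commutes]
      exact (IsScalarTower.algebraMap_apply k k' Ω c).symm)
  map_one' := by ext z; rfl
  map_mul' _ _ := by ext z; rfl

theorem res_apply (σ : algebraicClosure k' Ω ≃ₐ[k'] algebraicClosure k' Ω)
    (c : algebraicClosure k Ω) (c' : algebraicClosure k' Ω) (h : (c' : Ω) = (c : Ω)) :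
    ((res k k' Ω σ c : algebraicClosure k Ω) : Ω) = (σ c' : Ω) := by
  have h1 : c' = eps k k' Ω c := Subtype.ext h
  rw [h1]
  rfl

theorem res_cont : Continuous (res k k' Ω) := by
  refine cont_of _ fun z => ?_
  have h1 := cont_mem (MonoidHom.id (algebraicClosure k' Ω ≃ₐ[k'] algebraicClosure k' Ω))
    continuous_id (eps k k' Ω z)
  refine Filter.mem_of_superset h1 fun σ hσ => ?_
  apply Subtype.ext
  rw [res_apply σ z (eps k k' Ω z) rfl]
  exact congrArg (fun w : algebraicClosure k' Ω => (w : Ω)) hσ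

variable (k k' Ω) in
/-- `k' → k̄` -/
def iot : k' →ₐ[k] algebraicClosure k Ω where
  toFun c := ⟨algebraMap k' Ω c, emb_cl c⟩
  map_one' := Subtype.ext (map_one _)
  map_mul' _ _ := Subtype.ext (map_mul _ _ _)
  map_zero' := Subtype.ext (map_zero _)
  map_add' _ _ := Subtype.ext (map_add _ _ _)
  commutes' c := Subtype.ext (IsScalarTower.algebraMap_apply k k' Ω c).symm

theorem res_lift (ρ : algebraicClosure k Ω ≃ₐ[k] algebraicClosure k Ω)
    (h : ∀ c : k', ρ (iot k k' Ω c) = iot k k' Ω c) : ∃ σ, res k k' Ω σ = ρ := by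
  refine ⟨AlgEquiv.ofRingEquiv
    (f := ((eps k k' Ω).symm.trans ρ.toRingEquiv).trans (eps k k' Ω)) (fun c => ?_), ?_⟩
  · apply Subtype.ext
    exact congrArg (fun w : algebraicClosure k Ω => (w : Ω)) (h c)
  · ext z
    rfl

theorem res_fix (σ : algebraicClosure k' Ω ≃ₐ[k'] algebraicClosure k' Ω) (c : k') :
    res k k' Ω σ (iot k k' Ω c) = iot k k' Ω c := by
  apply Subtype.ext
  rw [res_apply (k := k) σ (iot k k' Ω c) (algebraMap k' (algebraicClosure k' Ω) c) rfl,
    AlgEquiv.commutes]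
  rfl

theorem iot_normal [Normal k k'] (ρ : algebraicClosure k Ω ≃ₐ[k] algebraicClosure k Ω) (c : k') :
    ∃ c' : k', ρ (iot k k' Ω c) = iot k k' Ω c' := by
  have hn : Normal k (iot k k' Ω).fieldRange :=
    Normal.of_algEquiv (AlgEquiv.ofInjectiveField (iot k k' Ω))
  have h1 := AlgHom.fieldRange_of_normal (E := (iot k k' Ω).fieldRange)
    (((ρ : algebraicClosure k Ω →ₐ[k] algebraicClosure k Ω)).comp (iot k k' Ω).fieldRange.val)
  have h2 : ρ (iot k k' Ω c) ∈ (((ρ : algebraicClosure k Ω →ₐ[k] algebraicClosure k Ω)).comp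
      (iot k k' Ω).fieldRange.val).fieldRange := ⟨⟨iot k k' Ω c, c, rfl⟩, rfl⟩
  rw [h1] at h2
  obtain ⟨c', hc'⟩ := h2
  exact ⟨c', hc'.symm⟩

theorem res_conj [Normal k k'] (ρ : algebraicClosure k Ω ≃ₐ[k] algebraicClosure k Ω)
    (σ : algebraicClosure k' Ω ≃ₐ[k'] algebraicClosure k' Ω) :
    ∃ τ, res k k' Ω τ = ρ * res k k' Ω σ * ρ⁻¹ := by
  refine res_lift _ fun c => ?_
  obtain ⟨c', hc'⟩ := iot_normal ρ⁻¹ c
  show ρ (res k k' Ω σ (ρ⁻¹ (iot k k' Ω c))) = _
  rw [hc', res_fix, ← hc']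
  exact AlgEquiv.apply_symm_apply ρ _

/-! ### the field `N` -/

variable {F₀ : Type} [Field F₀] [Algebra F₀ Ω] {F : IntermediateField k' Ω}

/-- `N` as an extension of `F = k' F₀` -/
def up (hF : Comp F₀ F) (N : IntermediateField F₀ Ω) (hN : ∀ z ∈ algebraicClosure k Ω, z ∈ N) :
    IntermediateField F Ω :=
  { N.toSubfield with
    algebraMap_mem' := fun c => hF.gen N.toSubfield (fun c => hN _ (emb_cl c))
      (fun c => N.algebraMap_mem c) _ c.2 }

/-- the identity -/
def epsN (hF : Comp F₀ F) (N : IntermediateField F₀ Ω) (hN : ∀ z ∈ algebraicClosure k Ω, z ∈ N) :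
    N ≃+* up hF N hN where
  toFun z := ⟨z, z.2⟩
  invFun z := ⟨z, z.2⟩
  left_inv _ := rfl
  right_inv _ := rfl
  map_mul' _ _ := rfl
  map_add' _ _ := rfl

variable (hF : Comp F₀ F) (N : IntermediateField F₀ Ω) (hN : ∀ z ∈ algebraicClosure k Ω, z ∈ N)
  (S : (algebraicClosure k Ω ≃ₐ[k] algebraicClosure k Ω) →* (N ≃ₐ[F₀] N))

theorem fix_F (hF : Comp F₀ F) (hN : ∀ z ∈ algebraicClosure k Ω, z ∈ N)
    (hcompat : ∀ σ (c : algebraicClosure k Ω) (z : N), (z : Ω) = (c : Ω) →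
      (S σ z : Ω) = (σ c : Ω)) (σ : algebraicClosure k' Ω ≃ₐ[k'] algebraicClosure k' Ω)
    (z : N) (hz : (z : Ω) ∈ F) : S (res k k' Ω σ) z = z := by
  have h1 := hF.gen (Pool.Agent.V11235.SL.fixF N (S (res k k' Ω σ))).toSubfield (fun c => by
    refine ⟨hN _ (emb_cl c), ?_⟩
    apply Subtype.ext
    rw [hcompat _ (iot k k' Ω c) _ rfl, res_fix]
    rfl) (fun c => (Pool.Agent.V11235.SL.fixF N (S (res k k' Ω σ))).algebraMap_mem c) _ hz
  obtain ⟨h2, h3⟩ := h1
  exact h3

/-- the section over `k'` -/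
def upS (hF : Comp F₀ F) (hN : ∀ z ∈ algebraicClosure k Ω, z ∈ N)
    (hcompat : ∀ σ (c : algebraicClosure k Ω) (z : N), (z : Ω) = (c : Ω) →
      (S σ z : Ω) = (σ c : Ω)) :
    (algebraicClosure k' Ω ≃ₐ[k'] algebraicClosure k' Ω) →* (up hF N hN ≃ₐ[F] up hF N hN) where
  toFun σ := AlgEquiv.ofRingEquiv
    (f := ((epsN hF N hN).symm.trans (S (res k k' Ω σ)).toRingEquiv).trans (epsN hF N hN)) (by
      intro c
      apply Subtype.ext
      exact congrArg (fun w : N => (w : Ω)) (fix_F N S hF hN hcompat σ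
        ((epsN hF N hN).symm (algebraMap F (up hF N hN) c)) c.2))
  map_one' := by
    ext z
    show ((S (res k k' Ω 1) ((epsN hF N hN).symm z) : N) : Ω) = _
    rw [map_one, map_one]
    rfl
  map_mul' σ τ := by
    ext z
    show ((S (res k k' Ω (σ * τ)) ((epsN hF N hN).symm z) : N) : Ω) = _
    rw [map_mul, map_mul]
    rfl

theorem upS_apply (hF : Comp F₀ F) (hN : ∀ z ∈ algebraicClosure k Ω, z ∈ N)
    (hcompat : ∀ σ (c : algebraicClosure k Ω) (z : N), (z : Ω) = (c : Ω) →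
      (S σ z : Ω) = (σ c : Ω)) (σ : algebraicClosure k' Ω ≃ₐ[k'] algebraicClosure k' Ω)
    (z : N) : upS N S hF hN hcompat σ (epsN hF N hN z) = epsN hF N hN (S (res k k' Ω σ) z) := rfl

theorem upS_cont [Algebra.IsAlgebraic F₀ Ω] (hS : Continuous S) (hF : Comp F₀ F)
    (hN : ∀ z ∈ algebraicClosure k Ω, z ∈ N)
    (hcompat : ∀ σ (c : algebraicClosure k Ω) (z : N), (z : Ω) = (c : Ω) →
      (S σ z : Ω) = (σ c : Ω)) : Continuous (upS N S hF hN hcompat) := by
  refine cont_of _ fun z => ?_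
  have h1 := cont_mem S hS ((epsN hF N hN).symm z)
  have h2 := (res_cont (k := k) (k' := k') (Ω := Ω)).continuousAt (x := 1)
  have h3 := h2.preimage_mem_nhds (t := {ρ | S ρ ((epsN hF N hN).symm z) = (epsN hF N hN).symm z})
    (by rw [map_one]; exact h1)
  refine Filter.mem_of_superset h3 fun σ hσ => ?_
  show epsN hF N hN (S (res k k' Ω σ) ((epsN hF N hN).symm z)) = z
  have h4 : S (res k k' Ω σ) ((epsN hF N hN).symm z) = (epsN hF N hN).symm z := hσ
  rw [h4]
  rfl

end gal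

end Pool.Agent.K1H4.SC
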