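import Pool.Agent.K1H4.SC.Gal
import Pool.Agent.Y157.PS.Ind2

/-!
# Descent
-/

set_option autoImplicit false
set_option linter.overlappingInstances false

namespace Pool.Agent.K1H4.SC

open Pool.Agent.Y157.PS Polynomial

/-- elements of a field contained in a valuation ring which are not units are zero -/
theorem non_zero {K N : Type} [Field K] [Field N] (ι : K →+* N) (W : ValuationSubring N)
    (h : ∀ c, ι c ∈ W) (c : K) (hc : ι c ∈ W.nonunits) : c = 0 := by
  by_contra h0
  rw [ValuationSubring.mem_nonunits_iff] at hc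
  have h1 := (ValuationSubring.valuation_le_one_iff W _).2 (h c⁻¹)
  have h2 : W.valuation (ι c) * W.valuation (ι c⁻¹) = 1 := by
    rw [← map_mul, ← map_mul, mul_inv_cancel₀ h0, map_one, map_one]
  have h3 : W.valuation (ι c) * W.valuation (ι c⁻¹) < 1 :=
    lt_of_le_of_lt (mul_le_of_le_one_right' h1) hc
  rw [h2] at h3
  exact lt_irrefl _ h3

theorem val_alg2 {k N Ω : Type} [Field k] [Field N] [Field Ω] [Algebra k Ω] (i : N →+* Ω)
    (φ : k →+* N) (hφ : ∀ c, i (φ c) = algebraMap k Ω c) (W : ValuationSubring N)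
    (h : ∀ c, φ c ∈ W) (z : N) (hz : IsAlgebraic k (i z)) : z ∈ W := by
  letI := φ.toAlgebra
  refine val_alg (k := k) W h z ?_
  obtain ⟨p, hp0, hp⟩ := hz
  refine ⟨p, hp0, ?_⟩
  apply i.injective
  rw [map_zero, ← hp, aeval_def, aeval_def, hom_eval₂]
  congr 1
  ext c
  exact hφ c

theorem comp_of {k' F₀ Ω : Type} [Field k'] [Field F₀] [Field Ω] [Algebra F₀ Ω] [Algebra k' Ω]
    (F : IntermediateField k' Ω)
    (h : F = IntermediateField.adjoin k' (Set.range (algebraMap F₀ Ω))) : Comp F₀ F := by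
  subst h
  refine ⟨fun c => IntermediateField.subset_adjoin _ _ ⟨c, rfl⟩, fun E h1 h2 z hz => ?_⟩
  have h3 : Subfield.closure (Set.range (algebraMap k' Ω) ∪ Set.range (algebraMap F₀ Ω)) ≤ E := by
    rw [Subfield.closure_le]
    rintro w (⟨c, rfl⟩ | ⟨c, rfl⟩)
    · exact h1 c
    · exact h2 c
  exact h3 hz

theorem adjoin_top {k' Ω : Type} [Field k'] [Field Ω] [Algebra k' Ω] (x y : Ω)
    (x' y' : IntermediateField.adjoin k' {x, y}) (hx : (x' : Ω) = x) (hy : (y' : Ω) = y) :
    IntermediateField.adjoin k' {x', y'} = (⊤ : IntermediateField k' _) := by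
  have h1 : IntermediateField.map (IntermediateField.adjoin k' {x, y}).val
      (IntermediateField.adjoin k' {x', y'}) = IntermediateField.adjoin k' {x, y} := by
    rw [IntermediateField.adjoin_map]
    congr 1
    rw [Set.image_pair]
    show {(x' : Ω), (y' : Ω)} = _
    rw [hx, hy]
  rw [eq_top_iff]
  intro z _
  have h2 : (z : Ω) ∈ IntermediateField.map (IntermediateField.adjoin k' {x, y}).val
      (IntermediateField.adjoin k' {x', y'}) := by
    rw [h1]; exact z.2
  obtain ⟨w, hw, hwz⟩ := h2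
  have h3 : w = z := Subtype.ext hwz
  rw [← h3]
  exact hw

variable {A' k' k F₀ Ω : Type} [CommRing A'] [IsDomain A'] [IsDiscreteValuationRing A']
  [IsAdicComplete (IsLocalRing.maximalIdeal A') A'] [Finite (IsLocalRing.ResidueField A')]
  [Field k'] [CharZero k'] [Algebra A' k'] [IsFractionRing A' k'] [Field k] [Algebra k k']
  [Normal k k'] [Field F₀] [Field Ω] [Algebra k F₀] [Algebra F₀ Ω] [Algebra k Ω]
  [IsScalarTower k F₀ Ω] [Algebra k' Ω] [IsScalarTower k k' Ω] [IsAlgClosed Ω]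
  [Algebra.IsAlgebraic F₀ Ω]

theorem core {ℓ : ℕ} [Fact ℓ.Prime] (hℓ : IsUnit (ℓ : A')) (f : A'[X])
    (hlc : IsUnit f.leadingCoeff) (hs : (f.map (IsLocalRing.residue A')).Separable)
    (hdvd : ℓ ∣ f.natDegree) (h3 : 3 ≤ f.natDegree) (ϖ : A') (hϖ : Irreducible ϖ) (d : k') (m : ℤ)
    (hm : ¬ (ℓ : ℤ) ∣ m) (t : A') (ht : IsUnit t)
    (hd : d = algebraMap A' k' t * algebraMap A' k' ϖ ^ m) (x y : Ω) (hx : Transcendental k' x)
    (hxy : algebraMap k' Ω d * y ^ ℓ = aeval x (f.map (algebraMap A' k')))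
    (hF : IntermediateField.adjoin k' {x, y} =
      IntermediateField.adjoin k' (Set.range (algebraMap F₀ Ω))) (h : F₀)
    (hbr : ∀ V : ValuationSubring Ω, (∀ c : k', algebraMap k' Ω c ∈ V) →
      (algebraMap F₀ Ω h ∈ V.nonunits ↔ aeval x (f.map (algebraMap A' k')) ∈ V.nonunits))
    (u : F₀) (hu : Transcendental k u) (hu' : Algebra.IsAlgebraic (IntermediateField.adjoin k {u}) F₀)
    (N : IntermediateField F₀ Ω) (hN : geomPro ℓ k F₀ Ω ≤ N)
    (S : (algebraicClosure k Ω ≃ₐ[k] algebraicClosure k Ω) →* (N ≃ₐ[F₀] N)) (hS : Continuous S)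
    (hcompat : ∀ σ (c : algebraicClosure k Ω) (z : N), (z : Ω) = (c : Ω) →
      (S σ z : Ω) = (σ c : Ω)) :
    ∃ W : ValuationSubring N,
      (∀ c : k, algebraMap F₀ N (algebraMap k F₀ c) ∈ W) ∧ algebraMap F₀ N h ∈ W.nonunits ∧
      (∃ e : k', aeval e (f.map (algebraMap A' k')) = 0 ∧
        ∃ w : N, (w : Ω) = x - algebraMap k' Ω e ∧ w ∈ W.nonunits) ∧
      (∀ z : F₀, algebraMap F₀ N z ∈ W →
        ∃ c : k, algebraMap F₀ N (z - algebraMap k F₀ c) ∈ W.nonunits) ∧
      (∀ σ, ∀ z : N, (z : Ω) ∈ geomPro ℓ k F₀ Ω → (S σ z ∈ W ↔ z ∈ W)) ∧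
      ∀ W' : ValuationSubring N,
        (∀ c : k, algebraMap F₀ N (algebraMap k F₀ c) ∈ W') →
        algebraMap F₀ N h ∈ W'.nonunits →
        (∀ σ, ∀ z : N, (z : Ω) ∈ geomPro ℓ k F₀ Ω → (S σ z ∈ W' ↔ z ∈ W')) →
        ∀ z : N, (z : Ω) ∈ geomPro ℓ k F₀ Ω → (z ∈ W' ↔ z ∈ W) := by
  classical
  have hchar : CharZero k := (algebraMap k k').charZero
  set F : IntermediateField k' Ω := IntermediateField.adjoin k' {x, y} with hFdef
  have hC : Comp F₀ F := comp_of F hF
  have hKM : ∀ z ∈ algebraicClosure k Ω, z ∈ geomPro ℓ k F₀ Ω := by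
    intro z hz
    have h1 : z ∈ geomF k F₀ Ω := IntermediateField.subset_adjoin _ _ hz
    exact (maxPro ℓ k (geomF k F₀ Ω) Ω).algebraMap_mem ⟨z, h1⟩
  have hKN : ∀ z ∈ algebraicClosure k Ω, z ∈ N := fun z hz => hN (hKM z hz)
  -- the induced automorphisms preserve `M`
  obtain ⟨T, -, hT⟩ := a_ind2 ℓ k F₀ Ω u hu hu' N hN _ S hS
  have hSM : ∀ σ (z : N), (z : Ω) ∈ geomPro ℓ k F₀ Ω → (S σ z : Ω) ∈ geomPro ℓ k F₀ Ω := by
    intro σ z hz
    rw [← hT σ z ⟨(z : Ω), hz⟩ rfl]
    exact (T σ ⟨(z : Ω), hz⟩).2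
  -- the algebraic closure of `k` is contained in all valuation rings over `k`
  have hval : ∀ V : ValuationSubring N, (∀ c : k, algebraMap F₀ N (algebraMap k F₀ c) ∈ V) →
      ∀ z : N, (z : Ω) ∈ algebraicClosure k Ω → z ∈ V := by
    intro V hV z hz
    exact val_alg2 (algebraMap N Ω) ((algebraMap F₀ N).comp (algebraMap k F₀))
      (fun c => (IsScalarTower.algebraMap_apply k F₀ Ω c).symm) V hV z
      (mem_algebraicClosure_iff.1 hz)
  -- the black box
  have halgF : Algebra.IsAlgebraic F Ω := by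
    refine ⟨fun z => ?_⟩
    obtain ⟨p, hp0, hp⟩ := (Algebra.IsAlgebraic.isAlgebraic (R := F₀) z)
    let g : F₀ →+* F :=
      { toFun := fun a => ⟨algebraMap F₀ Ω a, hC.inc a⟩
        map_one' := Subtype.ext (by simp)
        map_mul' := fun a b => Subtype.ext (by simp)
        map_zero' := Subtype.ext (by simp)
        map_add' := fun a b => Subtype.ext (by simp) }
    refine ⟨p.map g, (Polynomial.map_ne_zero_iff g.injective).2 hp0, ?_⟩
    rw [aeval_def, eval₂_map]
    exact hp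
  let x' : F := ⟨x, IntermediateField.subset_adjoin _ _ (by simp)⟩
  let y' : F := ⟨y, IntermediateField.subset_adjoin _ _ (by simp)⟩
  have hx' : Transcendental k' x' := by
    intro h1
    exact hx (h1.algebraMap (A := Ω))
  have haev : ∀ p : k'[X], ((aeval x' p : F) : Ω) = aeval x p := by
    intro p
    exact (aeval_algebraMap_apply Ω x' p).symm
  have hxy' : algebraMap k' F d * y' ^ ℓ = aeval x' (f.map (algebraMap A' k')) := by
    apply Subtype.ext
    rw [haev]
    exact hxy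
  have hF' : IntermediateField.adjoin k' {x', y'} = (⊤ : IntermediateField k' F) :=
    adjoin_top x y x' y' rfl rfl
  have hM' : geomPro ℓ k' F Ω ≤ up hC N hKN := by
    intro z hz
    exact hN ((pro_iff hC ℓ z).2 hz)
  obtain ⟨W', ⟨⟨g1, ⟨e, he, g2⟩, g3⟩, g4⟩, g5⟩ := padicM (A := A') (k := k') (F := F) (Ω := Ω)
    a_ind2 hℓ f hlc hs hdvd h3 ϖ hϖ d m hm t ht hd x' y' hx' hxy' hF' (up hC N hKN) hM'
    (upS N S hC hKN hcompat) (upS_cont N S hS hC hKN hcompat) (by
      intro σ c z hz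
      have h1 := hcompat (res k k' Ω σ) ((eps k k' Ω).symm c) ((epsN hC N hKN).symm z) hz
      exact h1)
  let i : N →+* up hC N hKN := (epsN hC N hKN : N →+* up hC N hKN)
  -- uniqueness, transported to `N`
  have huniq : ∀ V : ValuationSubring N, (∀ c : k, algebraMap F₀ N (algebraMap k F₀ c) ∈ V) →
      algebraMap F₀ N h ∈ V.nonunits →
      (∀ σ, ∀ z : N, (z : Ω) ∈ geomPro ℓ k F₀ Ω → (S (res k k' Ω σ) z ∈ V ↔ z ∈ V)) →
      ∀ z : N, (z : Ω) ∈ geomPro ℓ k F₀ Ω → (z ∈ V ↔ i z ∈ W') := by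
    intro V hV hVh hVS z hz
    obtain ⟨V₁, hV₁⟩ := a_extv N Ω V
    have hV1 : ∀ w : N, (w : Ω) ∈ V₁ ↔ w ∈ V := by
      intro w
      rw [← hV₁]
      rfl
    let V₂ : ValuationSubring (up hC N hKN) := V₁.comap (algebraMap (up hC N hKN) Ω)
    have hV2 : ∀ w : N, i w ∈ V₂ ↔ w ∈ V := fun w => hV1 w
    have hk' : ∀ c : k', algebraMap k' Ω c ∈ V₁ := by
      intro c
      have h1 := hval V hV ⟨algebraMap k' Ω c, hKN _ (emb_cl c)⟩ (emb_cl c)
      exact (hV1 _).2 h1
    have h2 := g5 V₂ (fun c => hk' c) (by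
      have h3 : algebraMap F₀ Ω h ∈ V₁.nonunits := by
        have h4 := (non_incl (algebraMap N Ω) V₁ (algebraMap F₀ N h)).1 (by rw [hV₁]; exact hVh)
        exact h4
      have h5 := (hbr V₁ hk').1 h3
      refine (non_incl (algebraMap (up hC N hKN) Ω) V₁ _).2 ?_
      show ((aeval x' (f.map (algebraMap A' k')) : F) : Ω) ∈ V₁.nonunits
      rw [haev]
      exact h5) (by
      intro σ w hw
      have h3 : (w : Ω) ∈ geomPro ℓ k F₀ Ω := (pro_iff hC ℓ _).2 hw
      have h4 := hVS σ ((epsN hC N hKN).symm w) h3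
      rw [← hV2, ← hV2] at h4
      exact h4) (i z) ((pro_iff hC ℓ _).1 hz)
    rw [← hV2]
    exact h2
  let W : ValuationSubring N := W'.comap i
  have hWn : ∀ z : N, z ∈ W.nonunits ↔ i z ∈ W'.nonunits := fun z => non_incl i W' z
  have hWk : ∀ c : k, algebraMap F₀ N (algebraMap k F₀ c) ∈ W := by
    intro c
    have h1 := g1 (algebraMap k k' c)
    have h2 : i (algebraMap F₀ N (algebraMap k F₀ c)) =
        algebraMap F (up hC N hKN) (algebraMap k' F (algebraMap k k' c)) := by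
      apply Subtype.ext
      show algebraMap F₀ Ω (algebraMap k F₀ c) = algebraMap k' Ω (algebraMap k k' c)
      rw [← IsScalarTower.algebraMap_apply, ← IsScalarTower.algebraMap_apply]
    show i _ ∈ W'
    rw [h2]
    exact h1
  have hWK := hval W hWk
  have hWh : algebraMap F₀ N h ∈ W.nonunits := by
    obtain ⟨V₁, hV₁⟩ := a_extv (up hC N hKN) Ω W'
    have hk' : ∀ c : k', algebraMap k' Ω c ∈ V₁ := by
      intro c
      have h1 := g1 c
      rw [← hV₁] at h1
      exact h1
    have h2 : aeval x (f.map (algebraMap A' k')) ∈ V₁.nonunits := by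
      have h4 : i.comp (RingHom.id N) = i := rfl
      -- `f(x)` is congruent to `f(e) = 0`
      have h5 : algebraMap (up hC N hKN) Ω (algebraMap F (up hC N hKN)
          (x' - algebraMap k' F e)) ∈ V₁.nonunits := by
        refine (non_incl (algebraMap (up hC N hKN) Ω) V₁ _).1 ?_
        rw [hV₁]
        exact g2
      have h6 : x - algebraMap k' Ω e ∈ V₁.nonunits := h5
      obtain ⟨q, hq⟩ := dvd_iff_isRoot.2 (show (f.map (algebraMap A' k')).IsRoot e by
        rw [IsRoot.def, ← coe_aeval_eq_eval]; exact he)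
      have h7 : aeval x (f.map (algebraMap A' k')) = (x - algebraMap k' Ω e) * aeval x q := by
        rw [hq, map_mul, map_sub, aeval_X, aeval_C]
      have h8 : x - algebraMap k' Ω e ∈ V₁ := ValuationSubring.nonunits_subset h6
      have h9 : x ∈ V₁ := by
        have := add_mem h8 (hk' e)
        rwa [sub_add_cancel] at this
      have h10 : aeval x q ∈ V₁ := by
        rw [aeval_eq_sum_range]
        refine sum_mem fun j _ => ?_
        rw [Algebra.smul_def]
        exact mul_mem (hk' _) (pow_mem h9 j)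
      rw [h7]
      rw [ValuationSubring.mem_nonunits_iff] at h6 ⊢
      rw [map_mul]
      have h11 := (ValuationSubring.valuation_le_one_iff V₁ _).2 h10
      exact lt_of_le_of_lt (mul_le_of_le_one_right' h11) h6
    have h3 := (hbr V₁ hk').2 h2
    rw [hWn, ← hV₁]
    exact (non_incl (algebraMap (up hC N hKN) Ω) V₁ _).2 h3
  have hWS' : ∀ σ, ∀ z : N, (z : Ω) ∈ geomPro ℓ k F₀ Ω → (S (res k k' Ω σ) z ∈ W ↔ z ∈ W) := by
    intro σ z hz
    exact g4 σ (i z) ((pro_iff hC ℓ _).1 hz)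
  -- descent
  have hWS : ∀ σ, ∀ z : N, (z : Ω) ∈ geomPro ℓ k F₀ Ω → (S σ z ∈ W ↔ z ∈ W) := by
    intro σ z hz
    let V : ValuationSubring N := W.comap ((S σ : N ≃ₐ[F₀] N) : N →+* N)
    have h1 := huniq V (by
      intro c
      show S σ (algebraMap F₀ N (algebraMap k F₀ c)) ∈ W
      rw [AlgEquiv.commutes]
      exact hWk c) (by
      refine (non_incl ((S σ : N ≃ₐ[F₀] N) : N →+* N) W _).2 ?_
      show S σ (algebraMap F₀ N h) ∈ W.nonunits
      rw [AlgEquiv.commutes]
      exact hWh) (by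
      intro σ' w hw
      show S σ (S (res k k' Ω σ') w) ∈ W ↔ S σ w ∈ W
      obtain ⟨τ, hτ⟩ := res_conj (k' := k') σ σ'
      have h2 : S σ (S (res k k' Ω σ') w) = S (res k k' Ω τ) (S σ w) := by
        rw [hτ, map_mul, map_mul, map_inv]
        show _ = S σ (S (res k k' Ω σ') ((S σ)⁻¹ (S σ w)))
        have h3 : (S σ)⁻¹ (S σ w) = w := AlgEquiv.symm_apply_apply (S σ) w
        rw [h3]
      rw [h2]
      exact hWS' τ (S σ w) (hSM σ w hw)) z hz
    exact h1
  refine ⟨W, hWk, hWh, ⟨e, he, (epsN hC N hKN).symm (algebraMap F (up hC N hKN)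
    (x' - algebraMap k' F e)), rfl, ?_⟩, fun z hz => ?_, hWS, fun V hV hVh hVS z hz => ?_⟩
  · rw [hWn]
    exact g2
  · obtain ⟨c, hc⟩ := g3 ⟨algebraMap F₀ Ω z, hC.inc z⟩ hz
    let c' : N := ⟨algebraMap k' Ω c, hKN _ (emb_cl c)⟩
    have h1 : algebraMap F₀ N z - c' ∈ W.nonunits := by
      rw [hWn]
      exact hc
    -- the residue is in `k`
    have hfix : ∀ σ : algebraicClosure k Ω ≃ₐ[k] algebraicClosure k Ω,
        σ (iot k k' Ω c) = iot k k' Ω c := by
      intro σ
      have h2 : ((algebraMap F₀ N z - c' : N) : Ω) ∈ geomPro ℓ k F₀ Ω :=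
        sub_mem ((geomPro ℓ k F₀ Ω).algebraMap_mem z) (hKM _ (emb_cl c))
      have h3 : S σ (algebraMap F₀ N z - c') ∈ W.nonunits := by
        rw [ValuationSubring.mem_nonunits_iff_or] at h1 ⊢
        rcases h1 with h | h
        · left
          rw [h, map_zero]
        · right
          rw [← map_inv₀]
          intro h6
          apply h
          refine (hWS σ _ ?_).1 h6
          exact inv_mem h2
      let ι : algebraicClosure k Ω →+* N :=
        { toFun := fun a => ⟨(a : Ω), hKN _ a.2⟩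
          map_one' := rfl
          map_mul' := fun _ _ => rfl
          map_zero' := rfl
          map_add' := fun _ _ => rfl }
      have h4 : S σ c' = ι (σ (iot k k' Ω c)) := Subtype.ext (hcompat σ (iot k k' Ω c) c' rfl)
      rw [map_sub, AlgEquiv.commutes, h4] at h3
      have h5 : ι (σ (iot k k' Ω c) - iot k k' Ω c) ∈ W.nonunits := by
        have h6 : ι (σ (iot k k' Ω c) - iot k k' Ω c) =
            (algebraMap F₀ N z - c') - (algebraMap F₀ N z - ι (σ (iot k k' Ω c))) := by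
          rw [map_sub]
          show _ - c' = _
          ring
        rw [h6, ValuationSubring.mem_nonunits_iff]
        rw [ValuationSubring.mem_nonunits_iff] at h1 h3
        exact lt_of_le_of_lt (Valuation.map_sub _ _ _) (max_lt h1 h3)
      have h6 := non_zero ι W (fun a => hWK _ a.2) _ h5
      exact sub_eq_zero.1 h6
    have hgal : IsGalois k (algebraicClosure k Ω) := by
      have hn : Normal k (algebraicClosure k Ω) := IsAlgClosure.normal k _
      exact ⟨⟩
    obtain ⟨a, ha⟩ := IntermediateField.mem_bot.1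
      ((InfiniteGalois.mem_bot_iff_fixed (iot k k' Ω c)).2 hfix)
    refine ⟨a, ?_⟩
    have h7 : algebraMap F₀ N (algebraMap k F₀ a) = c' := by
      apply Subtype.ext
      show algebraMap F₀ Ω (algebraMap k F₀ a) = algebraMap k' Ω c
      rw [← IsScalarTower.algebraMap_apply]
      exact congrArg (fun w : algebraicClosure k Ω => (w : Ω)) ha
    rw [map_sub, h7]
    exact h1
  · exact huniq V hV hVh (fun σ w hw => hVS _ w hw) z hz

end Pool.Agent.K1H4.SC
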