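import Pool.Agent.K1H4.SC.Main
import Pool.Agent.R925.L.Fin

/-!
# Descent along normal extensions, for any set of special points
-/

set_option autoImplicit false
set_option linter.overlappingInstances false

namespace Pool.Agent.K1H4.SC

open Pool.Agent.Y157.PS Polynomial

variable {k' k F₀ Ω : Type} [Field k'] [Field k] [CharZero k] [Algebra k k']
  [Normal k k'] [Field F₀] [Field Ω] [Algebra k F₀] [Algebra F₀ Ω] [Algebra k Ω]
  [IsScalarTower k F₀ Ω] [Algebra k' Ω] [IsScalarTower k k' Ω] [IsAlgClosed Ω]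
  [Algebra.IsAlgebraic F₀ Ω]

/-- the statement which descends: the sections over `k'` come from exactly one point of the set
given by `Q` -/
def Unique1 (ℓ : ℕ) (k' F Ω : Type) [Field k'] [Field F] [Field Ω] [Algebra k' F] [Algebra F Ω]
    [Algebra k' Ω] (Q : ValuationSubring Ω → Prop) : Prop :=
  ∀ (M : IntermediateField F Ω), geomPro ℓ k' F Ω ≤ M →
    ∀ (S : (algebraicClosure k' Ω ≃ₐ[k'] algebraicClosure k' Ω) →* (M ≃ₐ[F] M)), Continuous S →
    (∀ σ (c : algebraicClosure k' Ω) (z : M), (z : Ω) = (c : Ω) → (S σ z : Ω) = (σ c : Ω)) →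
    ∃ W : ValuationSubring M, (∀ c : k', algebraMap F M (algebraMap k' F c) ∈ W) ∧
      (∀ V : ValuationSubring Ω, V.comap (algebraMap M Ω) = W → Q V) ∧
      (∀ z : F, algebraMap F M z ∈ W →
          ∃ c : k', algebraMap F M (z - algebraMap k' F c) ∈ W.nonunits) ∧
      (∀ σ, ∀ z : M, (z : Ω) ∈ geomPro ℓ k' F Ω → (S σ z ∈ W ↔ z ∈ W)) ∧
      ∀ V : ValuationSubring Ω, (∀ c : k', algebraMap k' Ω c ∈ V) → Q V →
        (∀ σ, ∀ z : M, (z : Ω) ∈ geomPro ℓ k' F Ω → ((S σ z : Ω) ∈ V ↔ (z : Ω) ∈ V)) →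
        ∀ z : M, (z : Ω) ∈ geomPro ℓ k' F Ω → ((z : Ω) ∈ V ↔ z ∈ W)

theorem coreG {ℓ : ℕ} [Fact ℓ.Prime] (F : IntermediateField k' Ω)
    (hF : F = IntermediateField.adjoin k' (Set.range (algebraMap F₀ Ω))) (h : F₀)
    (Q : ValuationSubring Ω → Prop)
    (hbr : ∀ V : ValuationSubring Ω, (∀ c : k', algebraMap k' Ω c ∈ V) →
      (algebraMap F₀ Ω h ∈ V.nonunits ↔ Q V))
    (hQ : Unique1 ℓ k' F Ω Q)
    (u : F₀) (hu : Transcendental k u) (hu' : Algebra.IsAlgebraic (IntermediateField.adjoin k {u}) F₀)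
    (N : IntermediateField F₀ Ω) (hN : geomPro ℓ k F₀ Ω ≤ N)
    (S : (algebraicClosure k Ω ≃ₐ[k] algebraicClosure k Ω) →* (N ≃ₐ[F₀] N)) (hS : Continuous S)
    (hcompat : ∀ σ (c : algebraicClosure k Ω) (z : N), (z : Ω) = (c : Ω) →
      (S σ z : Ω) = (σ c : Ω)) :
    ∃ W : ValuationSubring N,
      (∀ c : k, algebraMap F₀ N (algebraMap k F₀ c) ∈ W) ∧ algebraMap F₀ N h ∈ W.nonunits ∧
      (∀ z : F₀, algebraMap F₀ N z ∈ W →
        ∃ c : k, algebraMap F₀ N (z - algebraMap k F₀ c) ∈ W.nonunits) ∧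
      (∀ σ, ∀ z : N, (z : Ω) ∈ geomPro ℓ k F₀ Ω → (S σ z ∈ W ↔ z ∈ W)) ∧
      ∀ W' : ValuationSubring N,
        (∀ c : k, algebraMap F₀ N (algebraMap k F₀ c) ∈ W') →
        algebraMap F₀ N h ∈ W'.nonunits →
        (∀ σ, ∀ z : N, (z : Ω) ∈ geomPro ℓ k F₀ Ω → (S σ z ∈ W' ↔ z ∈ W')) →
        ∀ z : N, (z : Ω) ∈ geomPro ℓ k F₀ Ω → (z ∈ W' ↔ z ∈ W) := by
  classical
  have hC : Comp F₀ F := comp_of F hF
  have hKM : ∀ z ∈ algebraicClosure k Ω, z ∈ geomPro ℓ k F₀ Ω := by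
    intro z hz
    have h1 : z ∈ geomF k F₀ Ω := IntermediateField.subset_adjoin _ _ hz
    exact (maxPro ℓ k (geomF k F₀ Ω) Ω).algebraMap_mem ⟨z, h1⟩
  have hKN : ∀ z ∈ algebraicClosure k Ω, z ∈ N := fun z hz => hN (hKM z hz)
  -- the induced automorphisms preserve `M`
  obtain ⟨T, -, hT⟩ := a_ind2 ℓ k F₀ Ω u hu hu' N hN _ S hS
  have hSM : ∀ σ (z : N), (z : Ω) ∈ geomPro ℓ k F₀ Ω → (S σ z : Ω) ∈ geomPro ℓ k F₀ Ω := by
    intro σ z hz
    rw [← hT σ z ⟨(z : Ω), hz⟩ rfl]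
    exact (T σ ⟨(z : Ω), hz⟩).2
  -- the algebraic closure of `k` is contained in all valuation rings over `k`
  have hval : ∀ V : ValuationSubring N, (∀ c : k, algebraMap F₀ N (algebraMap k F₀ c) ∈ V) →
      ∀ z : N, (z : Ω) ∈ algebraicClosure k Ω → z ∈ V := by
    intro V hV z hz
    exact val_alg2 (algebraMap N Ω) ((algebraMap F₀ N).comp (algebraMap k F₀))
      (fun c => (IsScalarTower.algebraMap_apply k F₀ Ω c).symm) V hV z
      (mem_algebraicClosure_iff.1 hz)
  -- the black box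
  have halgF : Algebra.IsAlgebraic F Ω := by
    refine ⟨fun z => ?_⟩
    obtain ⟨p, hp0, hp⟩ := (Algebra.IsAlgebraic.isAlgebraic (R := F₀) z)
    let g : F₀ →+* F :=
      { toFun := fun a => ⟨algebraMap F₀ Ω a, hC.inc a⟩
        map_one' := Subtype.ext (by simp)
        map_mul' := fun a b => Subtype.ext (by simp)
        map_zero' := Subtype.ext (by simp)
        map_add' := fun a b => Subtype.ext (by simp) }
    refine ⟨p.map g, (Polynomial.map_ne_zero_iff g.injective).2 hp0, ?_⟩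
    rw [aeval_def, eval₂_map]
    exact hp
  have hM' : geomPro ℓ k' F Ω ≤ up hC N hKN := by
    intro z hz
    exact hN ((pro_iff hC ℓ z).2 hz)
  obtain ⟨W', g1, g2, g3, g4, g5⟩ := hQ (up hC N hKN) hM'
    (upS N S hC hKN hcompat) (upS_cont N S hS hC hKN hcompat) (by
      intro σ c z hz
      have h1 := hcompat (res k k' Ω σ) ((eps k k' Ω).symm c) ((epsN hC N hKN).symm z) hz
      exact h1)
  let i : N →+* up hC N hKN := (epsN hC N hKN : N →+* up hC N hKN)
  -- uniqueness, transported to `N`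
  have huniq : ∀ V : ValuationSubring N, (∀ c : k, algebraMap F₀ N (algebraMap k F₀ c) ∈ V) →
      algebraMap F₀ N h ∈ V.nonunits →
      (∀ σ, ∀ z : N, (z : Ω) ∈ geomPro ℓ k F₀ Ω → (S (res k k' Ω σ) z ∈ V ↔ z ∈ V)) →
      ∀ z : N, (z : Ω) ∈ geomPro ℓ k F₀ Ω → (z ∈ V ↔ i z ∈ W') := by
    intro V hV hVh hVS z hz
    obtain ⟨V₁, hV₁⟩ := a_extv N Ω V
    have hV1 : ∀ w : N, (w : Ω) ∈ V₁ ↔ w ∈ V := by
      intro w
      rw [← hV₁]
      rfl
    let V₂ : ValuationSubring (up hC N hKN) := V₁.comap (algebraMap (up hC N hKN) Ω)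
    have hV2 : ∀ w : N, i w ∈ V₂ ↔ w ∈ V := fun w => hV1 w
    have hk' : ∀ c : k', algebraMap k' Ω c ∈ V₁ := by
      intro c
      have h1 := hval V hV ⟨algebraMap k' Ω c, hKN _ (emb_cl c)⟩ (emb_cl c)
      exact (hV1 _).2 h1
    have h2 := g5 V₁ hk' (by
      have h3 : algebraMap F₀ Ω h ∈ V₁.nonunits := by
        have h4 := (non_incl (algebraMap N Ω) V₁ (algebraMap F₀ N h)).1 (by rw [hV₁]; exact hVh)
        exact h4
      exact (hbr V₁ hk').1 h3) (by
      intro σ w hw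
      have h3 : (w : Ω) ∈ geomPro ℓ k F₀ Ω := (pro_iff hC ℓ _).2 hw
      have h4 := hVS σ ((epsN hC N hKN).symm w) h3
      rw [← hV2, ← hV2] at h4
      exact h4) (i z) ((pro_iff hC ℓ _).1 hz)
    rw [← hV2]
    exact h2
  let W : ValuationSubring N := W'.comap i
  have hWn : ∀ z : N, z ∈ W.nonunits ↔ i z ∈ W'.nonunits := fun z => non_incl i W' z
  have hWk : ∀ c : k, algebraMap F₀ N (algebraMap k F₀ c) ∈ W := by
    intro c
    have h1 := g1 (algebraMap k k' c)
    have h2 : i (algebraMap F₀ N (algebraMap k F₀ c)) =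
        algebraMap F (up hC N hKN) (algebraMap k' F (algebraMap k k' c)) := by
      apply Subtype.ext
      show algebraMap F₀ Ω (algebraMap k F₀ c) = algebraMap k' Ω (algebraMap k k' c)
      rw [← IsScalarTower.algebraMap_apply, ← IsScalarTower.algebraMap_apply]
    show i _ ∈ W'
    rw [h2]
    exact h1
  have hWK := hval W hWk
  have hWh : algebraMap F₀ N h ∈ W.nonunits := by
    obtain ⟨V₁, hV₁⟩ := a_extv (up hC N hKN) Ω W'
    have hk' : ∀ c : k', algebraMap k' Ω c ∈ V₁ := by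
      intro c
      have h1 := g1 c
      rw [← hV₁] at h1
      exact h1
    have h2 : Q V₁ := g2 V₁ hV₁
    have h3 := (hbr V₁ hk').2 h2
    rw [hWn, ← hV₁]
    exact (non_incl (algebraMap (up hC N hKN) Ω) V₁ _).2 h3
  have hWS' : ∀ σ, ∀ z : N, (z : Ω) ∈ geomPro ℓ k F₀ Ω → (S (res k k' Ω σ) z ∈ W ↔ z ∈ W) := by
    intro σ z hz
    exact g4 σ (i z) ((pro_iff hC ℓ _).1 hz)
  -- descent
  have hWS : ∀ σ, ∀ z : N, (z : Ω) ∈ geomPro ℓ k F₀ Ω → (S σ z ∈ W ↔ z ∈ W) := by
    intro σ z hz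
    let V : ValuationSubring N := W.comap ((S σ : N ≃ₐ[F₀] N) : N →+* N)
    have h1 := huniq V (by
      intro c
      show S σ (algebraMap F₀ N (algebraMap k F₀ c)) ∈ W
      rw [AlgEquiv.commutes]
      exact hWk c) (by
      refine (non_incl ((S σ : N ≃ₐ[F₀] N) : N →+* N) W _).2 ?_
      show S σ (algebraMap F₀ N h) ∈ W.nonunits
      rw [AlgEquiv.commutes]
      exact hWh) (by
      intro σ' w hw
      show S σ (S (res k k' Ω σ') w) ∈ W ↔ S σ w ∈ W
      obtain ⟨τ, hτ⟩ := res_conj (k' := k') σ σ'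
      have h2 : S σ (S (res k k' Ω σ') w) = S (res k k' Ω τ) (S σ w) := by
        rw [hτ, map_mul, map_mul, map_inv]
        show _ = S σ (S (res k k' Ω σ') ((S σ)⁻¹ (S σ w)))
        have h3 : (S σ)⁻¹ (S σ w) = w := AlgEquiv.symm_apply_apply (S σ) w
        rw [h3]
      rw [h2]
      exact hWS' τ (S σ w) (hSM σ w hw)) z hz
    exact h1
  refine ⟨W, hWk, hWh, fun z hz => ?_, hWS, fun V hV hVh hVS z hz => ?_⟩
  · obtain ⟨c, hc⟩ := g3 ⟨algebraMap F₀ Ω z, hC.inc z⟩ hz
    let c' : N := ⟨algebraMap k' Ω c, hKN _ (emb_cl c)⟩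
    have h1 : algebraMap F₀ N z - c' ∈ W.nonunits := by
      rw [hWn]
      exact hc
    -- the residue is in `k`
    have hfix : ∀ σ : algebraicClosure k Ω ≃ₐ[k] algebraicClosure k Ω,
        σ (iot k k' Ω c) = iot k k' Ω c := by
      intro σ
      have h2 : ((algebraMap F₀ N z - c' : N) : Ω) ∈ geomPro ℓ k F₀ Ω :=
        sub_mem ((geomPro ℓ k F₀ Ω).algebraMap_mem z) (hKM _ (emb_cl c))
      have h3 : S σ (algebraMap F₀ N z - c') ∈ W.nonunits := by
        rw [ValuationSubring.mem_nonunits_iff_or] at h1 ⊢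
        rcases h1 with h | h
        · left
          rw [h, map_zero]
        · right
          rw [← map_inv₀]
          intro h6
          apply h
          refine (hWS σ _ ?_).1 h6
          exact inv_mem h2
      let ι : algebraicClosure k Ω →+* N :=
        { toFun := fun a => ⟨(a : Ω), hKN _ a.2⟩
          map_one' := rfl
          map_mul' := fun _ _ => rfl
          map_zero' := rfl
          map_add' := fun _ _ => rfl }
      have h4 : S σ c' = ι (σ (iot k k' Ω c)) := Subtype.ext (hcompat σ (iot k k' Ω c) c' rfl)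
      rw [map_sub, AlgEquiv.commutes, h4] at h3
      have h5 : ι (σ (iot k k' Ω c) - iot k k' Ω c) ∈ W.nonunits := by
        have h6 : ι (σ (iot k k' Ω c) - iot k k' Ω c) =
            (algebraMap F₀ N z - c') - (algebraMap F₀ N z - ι (σ (iot k k' Ω c))) := by
          rw [map_sub]
          show _ - c' = _
          ring
        rw [h6, ValuationSubring.mem_nonunits_iff]
        rw [ValuationSubring.mem_nonunits_iff] at h1 h3
        exact lt_of_le_of_lt (Valuation.map_sub _ _ _) (max_lt h1 h3)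
      have h6 := non_zero ι W (fun a => hWK _ a.2) _ h5
      exact sub_eq_zero.1 h6
    have hgal : IsGalois k (algebraicClosure k Ω) := by
      have hn : Normal k (algebraicClosure k Ω) := IsAlgClosure.normal k _
      exact ⟨⟩
    obtain ⟨a, ha⟩ := IntermediateField.mem_bot.1
      ((InfiniteGalois.mem_bot_iff_fixed (iot k k' Ω c)).2 hfix)
    refine ⟨a, ?_⟩
    have h7 : algebraMap F₀ N (algebraMap k F₀ a) = c' := by
      apply Subtype.ext
      show algebraMap F₀ Ω (algebraMap k F₀ a) = algebraMap k' Ω c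
      rw [← IsScalarTower.algebraMap_apply]
      exact congrArg (fun w : algebraicClosure k Ω => (w : Ω)) ha
    rw [map_sub, h7]
    exact h1
  · exact huniq V hV hVh (fun σ w hw => hVS _ w hw) z hz

end Pool.Agent.K1H4.SC
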