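import Pool.Agent.K1H4.SC.Main

/-!
# Moebius transformations
-/

set_option autoImplicit false
set_option linter.overlappingInstances false

namespace Pool.Agent.K1H4.SC

open Pool.Agent.Y157.PS Polynomial

/-- `∑ f_i (α T + β)^i (γ T + δ)^(n - i)`, where `n` is the degree of `f` -/
noncomputable def homog {k' : Type} [Field k'] (f : k'[X]) (α β γ δ : k') : k'[X] :=
  ∑ i ∈ Finset.range (f.natDegree + 1),
    C (f.coeff i) * (C α * X + C β) ^ i * (C γ * X + C δ) ^ (f.natDegree - i)

theorem aeval_homog {k' Ω : Type} [Field k'] [Field Ω] [Algebra k' Ω] (f : k'[X])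
    (α β γ δ : k') (z : Ω) (hz : algebraMap k' Ω γ * z + algebraMap k' Ω δ ≠ 0) :
    aeval z (homog f α β γ δ) = (algebraMap k' Ω γ * z + algebraMap k' Ω δ) ^ f.natDegree *
      aeval ((algebraMap k' Ω α * z + algebraMap k' Ω β) /
        (algebraMap k' Ω γ * z + algebraMap k' Ω δ)) f := by
  rw [homog, map_sum, aeval_eq_sum_range, Finset.mul_sum]
  refine Finset.sum_congr rfl fun i hi => ?_
  have hi' : i ≤ f.natDegree := Nat.lt_succ_iff.1 (Finset.mem_range.1 hi)
  simp only [map_mul, map_pow, map_add, aeval_X, aeval_C]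
  rw [Algebra.smul_def, div_pow]
  have h1 : (algebraMap k' Ω γ * z + algebraMap k' Ω δ) ^ f.natDegree =
      (algebraMap k' Ω γ * z + algebraMap k' Ω δ) ^ (f.natDegree - i) *
        (algebraMap k' Ω γ * z + algebraMap k' Ω δ) ^ i := by
    rw [← pow_add, Nat.sub_add_cancel hi']
  rw [h1]
  generalize algebraMap k' Ω γ * z + algebraMap k' Ω δ = D at hz
  have hD : D ^ i ≠ 0 := pow_ne_zero _ hz
  field_simp

theorem aeval_homog_zero {k' Ω : Type} [Field k'] [Field Ω] [Algebra k' Ω] (f : k'[X])
    (α β γ δ : k') (z : Ω) (hz : algebraMap k' Ω γ * z + algebraMap k' Ω δ = 0) :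
    aeval z (homog f α β γ δ) = algebraMap k' Ω f.leadingCoeff *
      (algebraMap k' Ω α * z + algebraMap k' Ω β) ^ f.natDegree := by
  rw [homog, map_sum, Finset.sum_eq_single f.natDegree]
  · simp only [map_mul, map_pow, map_add, aeval_X, aeval_C, Nat.sub_self, pow_zero, mul_one]
    rfl
  · intro i hi hne
    have hi' : i < f.natDegree :=
      lt_of_le_of_ne (Nat.lt_succ_iff.1 (Finset.mem_range.1 hi)) hne
    simp only [map_mul, map_pow, map_add, aeval_X, aeval_C]
    rw [hz, zero_pow (Nat.sub_ne_zero_of_lt hi'), mul_zero]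
  · intro h
    exact absurd (Finset.mem_range.2 (Nat.lt_succ_self _)) h

theorem mem_of_poly {k' Ω : Type} [Field k'] [Field Ω] [Algebra k' Ω] (V : ValuationSubring Ω)
    (hV : ∀ c : k', algebraMap k' Ω c ∈ V) (p : k'[X]) (z : Ω) (hz : z ∈ V) : aeval z p ∈ V := by
  rw [aeval_eq_sum_range]
  refine sum_mem fun j _ => ?_
  rw [Algebra.smul_def]
  exact mul_mem (hV _) (pow_mem hz j)

/-- a polynomial in an element which is not integral is not integral -/
theorem pole {k' Ω : Type} [Field k'] [Field Ω] [Algebra k' Ω] (V : ValuationSubring Ω)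
    (hV : ∀ c : k', algebraMap k' Ω c ∈ V) (p : k'[X]) (hp : 0 < p.natDegree) (z : Ω)
    (hz : aeval z p ∈ V) : z ∈ V := by
  -- `z` is integral over `V`
  have hp0 : p ≠ 0 := by rintro rfl; simp at hp
  let g : k' →+* V :=
    { toFun := fun a => ⟨algebraMap k' Ω a, hV a⟩
      map_one' := Subtype.ext (by simp)
      map_mul' := fun a b => Subtype.ext (by simp)
      map_zero' := Subtype.ext (by simp)
      map_add' := fun a b => Subtype.ext (by simp) }
  let r : k'[X] := C p.leadingCoeff⁻¹ * p
  have hr : r.Monic := by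
    show (C p.leadingCoeff⁻¹ * p).Monic
    rw [mul_comm]
    exact monic_mul_leadingCoeff_inv hp0
  have hrdeg : r.natDegree = p.natDegree := by
    show (C p.leadingCoeff⁻¹ * p).natDegree = _
    exact natDegree_C_mul (inv_ne_zero (leadingCoeff_ne_zero.2 hp0))
  let w : V := g p.leadingCoeff⁻¹ * ⟨aeval z p, hz⟩
  have hint : IsIntegral V z := by
    refine ⟨r.map g - C w, ?_, ?_⟩
    · refine (hr.map g).sub_of_left ?_
      refine lt_of_le_of_lt degree_C_le ?_
      rw [← natDegree_pos_iff_degree_pos, hr.natDegree_map g, hrdeg]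
      exact hp
    · rw [eval₂_sub, eval₂_map, eval₂_C]
      show eval₂ (algebraMap k' Ω) z (C p.leadingCoeff⁻¹ * p) -
        (algebraMap k' Ω p.leadingCoeff⁻¹ * aeval z p) = 0
      rw [eval₂_mul, eval₂_C]
      exact sub_self _
  obtain ⟨v, hv⟩ := (IsIntegrallyClosed.isIntegral_iff (R := V)).1 hint
  rw [← hv]
  exact v.2

theorem val_pole {k' Ω : Type} [Field k'] [Field Ω] [Algebra k' Ω] (V : ValuationSubring Ω)
    (hV : ∀ c : k', algebraMap k' Ω c ∈ V) (p : k'[X]) (z : Ω) (hz : 1 < V.valuation z)
    (hp : p ≠ 0) : V.valuation (aeval z p) = V.valuation z ^ p.natDegree := by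
  have hle : ∀ c : k', V.valuation (algebraMap k' Ω c) ≤ 1 := fun c =>
    (ValuationSubring.valuation_le_one_iff V _).2 (hV c)
  have hc : V.valuation (algebraMap k' Ω p.leadingCoeff) = 1 := by
    have h0 : p.leadingCoeff ≠ 0 := leadingCoeff_ne_zero.2 hp
    have h3 : V.valuation (algebraMap k' Ω p.leadingCoeff) *
        V.valuation (algebraMap k' Ω p.leadingCoeff⁻¹) = 1 := by
      rw [← map_mul, ← map_mul, mul_inv_cancel₀ h0, map_one, map_one]
    refine le_antisymm (hle _) ?_
    rw [← h3]
    exact mul_le_of_le_one_right' (hle _)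
  have h1 : V.valuation (algebraMap k' Ω p.leadingCoeff * z ^ p.natDegree) =
      V.valuation z ^ p.natDegree := by
    rw [map_mul, hc, one_mul, map_pow]
  rw [aeval_eq_sum_range, Finset.sum_range_succ, Algebra.smul_def]
  show V.valuation (_ + algebraMap k' Ω p.leadingCoeff * z ^ p.natDegree) = _
  rw [Valuation.map_add_eq_of_lt_right, h1]
  rw [h1]
  refine Valuation.map_sum_lt _ (pow_ne_zero _ (ne_of_gt (lt_trans zero_lt_one hz))) fun i hi => ?_
  rw [Algebra.smul_def, map_mul, map_pow]
  refine lt_of_le_of_lt (mul_le_of_le_one_left' (hle _)) ?_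
  exact pow_lt_pow_right₀ hz (Finset.mem_range.1 hi)

/-- the zeros of `d (γ T + δ)^n f((α T + β)/(γ T + δ))` are the zeros of `f` in the coordinate
`(α T + β)/(γ T + δ)` -/
theorem branch {k' Ω : Type} [Field k'] [Field Ω] [Algebra k' Ω] (V : ValuationSubring Ω)
    (hV : ∀ c : k', algebraMap k' Ω c ∈ V) (f P : k'[X]) (d α β γ δ : k') (hd : d ≠ 0)
    (hdet : α * δ - β * γ ≠ 0) (hP : P = C d * homog f α β γ δ) (hdeg : P.natDegree = f.natDegree)
    (hf : 0 < f.natDegree) (z : Ω)
    (hz : algebraMap k' Ω γ * z + algebraMap k' Ω δ ≠ 0) :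
    aeval z P ∈ V.nonunits ↔
      aeval ((algebraMap k' Ω α * z + algebraMap k' Ω β) /
        (algebraMap k' Ω γ * z + algebraMap k' Ω δ)) f ∈ V.nonunits := by
  set D := algebraMap k' Ω γ * z + algebraMap k' Ω δ with hD
  set A := algebraMap k' Ω α * z + algebraMap k' Ω β with hA
  have hunit : ∀ c : k', c ≠ 0 → V.valuation (algebraMap k' Ω c) = 1 := by
    intro c hc
    have h1 := (ValuationSubring.valuation_le_one_iff V _).2 (hV c)
    have h2 := (ValuationSubring.valuation_le_one_iff V _).2 (hV c⁻¹)
    have h3 : V.valuation (algebraMap k' Ω c) * V.valuation (algebraMap k' Ω c⁻¹) = 1 := by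
      rw [← map_mul, ← map_mul, mul_inv_cancel₀ hc, map_one, map_one]
    refine le_antisymm h1 ?_
    rw [← h3]
    exact mul_le_of_le_one_right' h2
  have hPz : aeval z P = algebraMap k' Ω d * (D ^ f.natDegree * aeval (A / D) f) := by
    rw [hP, map_mul, aeval_C, aeval_homog f α β γ δ z hz]
  have hf0 : f.leadingCoeff ≠ 0 := leadingCoeff_ne_zero.2 (by rintro rfl; simp at hf)
  have hlin1 : algebraMap k' Ω α * D - algebraMap k' Ω γ * A =
      algebraMap k' Ω (α * δ - β * γ) := by
    rw [hD, hA, map_sub, map_mul, map_mul]; ring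
  constructor
  · intro h
    have hzV : z ∈ V := by
      refine pole V hV P (by rw [hdeg]; exact hf) z (ValuationSubring.nonunits_subset h)
    have hDV : D ∈ V := add_mem (mul_mem (hV γ) hzV) (hV δ)
    have hAV : A ∈ V := add_mem (mul_mem (hV α) hzV) (hV β)
    -- `D` is a unit
    have hDu : V.valuation D = 1 := by
      by_contra hne
      have h1 : V.valuation D < 1 :=
        lt_of_le_of_ne ((ValuationSubring.valuation_le_one_iff V _).2 hDV) hne
      -- `γ A` is a unit
      have h2 : V.valuation (algebraMap k' Ω γ * A) = 1 := by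
        have h3 : algebraMap k' Ω γ * A = algebraMap k' Ω α * D - algebraMap k' Ω (α * δ - β * γ) := by
          rw [← hlin1]; ring
        rw [h3, Valuation.map_sub_eq_of_lt_right]
        · exact hunit _ hdet
        · rw [hunit _ hdet, map_mul]
          exact lt_of_le_of_lt (mul_le_of_le_one_left' ((ValuationSubring.valuation_le_one_iff V _).2 (hV α))) h1
      have hAu : V.valuation A = 1 := by
        refine le_antisymm ((ValuationSubring.valuation_le_one_iff V _).2 hAV) ?_
        rw [← h2, map_mul]
        exact mul_le_of_le_one_left' ((ValuationSubring.valuation_le_one_iff V _).2 (hV γ))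
      -- the value of `P` is a unit
      obtain ⟨r, hr, hr2⟩ : ∃ r ∈ V, aeval z P =
          algebraMap k' Ω (d * f.leadingCoeff) * A ^ f.natDegree + D * r := by
        have h5 : ∃ r ∈ V, aeval z (homog f α β γ δ) =
            algebraMap k' Ω f.leadingCoeff * A ^ f.natDegree + D * r := by
          refine ⟨∑ i ∈ Finset.range f.natDegree, algebraMap k' Ω (f.coeff i) * A ^ i *
            D ^ (f.natDegree - i - 1), sum_mem fun i _ => ?_, ?_⟩
          · exact mul_mem (mul_mem (hV _) (pow_mem hAV i)) (pow_mem hDV _)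
          · rw [homog, map_sum, Finset.sum_range_succ, add_comm]
            congr 1
            · simp only [map_mul, map_pow, map_add, aeval_X, aeval_C, Nat.sub_self, pow_zero,
                mul_one]
              rfl
            · rw [Finset.mul_sum]
              refine Finset.sum_congr rfl fun i hi => ?_
              simp only [map_mul, map_pow, map_add, aeval_X, aeval_C]
              rw [← hD, ← hA]
              have h6 : D ^ (f.natDegree - i) = D * D ^ (f.natDegree - i - 1) := by
                rw [← pow_succ']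
                congr 1
                have := Finset.mem_range.1 hi
                omega
              rw [h6]; ring
        obtain ⟨r, hr, hr2⟩ := h5
        refine ⟨algebraMap k' Ω d * r, mul_mem (hV _) hr, ?_⟩
        rw [hP, map_mul, aeval_C, hr2, map_mul]
        ring
      rw [ValuationSubring.mem_nonunits_iff, hr2] at h
      have h7 : V.valuation (algebraMap k' Ω (d * f.leadingCoeff) * A ^ f.natDegree) = 1 := by
        rw [map_mul, hunit _ (mul_ne_zero hd hf0), map_pow, hAu, one_pow, one_mul]
      have h8 : V.valuation (D * r) < 1 := by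
        rw [map_mul]
        exact lt_of_le_of_lt (mul_le_of_le_one_right'
          ((ValuationSubring.valuation_le_one_iff V _).2 hr)) h1
      rw [Valuation.map_add_eq_of_lt_left _ (by rw [h7]; exact h8), h7] at h
      exact lt_irrefl _ h
    rw [ValuationSubring.mem_nonunits_iff] at h ⊢
    rw [hPz, map_mul, map_mul, map_pow, hDu, hunit _ hd, one_pow, one_mul, one_mul] at h
    exact h
  · intro h
    have hX : A / D ∈ V := pole V hV f hf _ (ValuationSubring.nonunits_subset h)
    -- `D` is integral
    have hDV : D ∈ V := by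
      by_contra hne
      have hzV : z ∉ V := fun h1 => hne (add_mem (mul_mem (hV γ) h1) (hV δ))
      have hz1 : 1 < V.valuation z := by
        rw [← not_le, ValuationSubring.valuation_le_one_iff]
        exact hzV
      have hγ : γ ≠ 0 := by
        rintro rfl
        apply hne
        rw [hD, map_zero, zero_mul, zero_add]
        exact hV δ
      have hDz : V.valuation D = V.valuation z := by
        have h1 : V.valuation (algebraMap k' Ω γ * z) = V.valuation z := by
          rw [map_mul, hunit _ hγ, one_mul]
        rw [hD, Valuation.map_add_eq_of_lt_left, h1]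
        rw [h1]
        exact lt_of_le_of_lt ((ValuationSubring.valuation_le_one_iff V _).2 (hV δ)) hz1
      have h2 := val_pole V hV P z hz1 (by rintro rfl; rw [natDegree_zero] at hdeg; omega)
      rw [hPz, map_mul, map_mul, map_pow, hunit _ hd, one_mul, hDz, hdeg] at h2
      have h3 : V.valuation z ^ f.natDegree ≠ 0 := pow_ne_zero _ (ne_of_gt (lt_trans zero_lt_one hz1))
      have h4 : V.valuation (aeval (A / D) f) = 1 := by
        have h5 : V.valuation z ^ f.natDegree * V.valuation (aeval (A / D) f) =
            V.valuation z ^ f.natDegree * 1 := by rw [h2, mul_one]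
        exact mul_left_cancel₀ h3 h5
      rw [ValuationSubring.mem_nonunits_iff, h4] at h
      exact lt_irrefl _ h
    have hD1 : V.valuation D ≤ 1 := (ValuationSubring.valuation_le_one_iff V _).2 hDV
    rw [ValuationSubring.mem_nonunits_iff] at h ⊢
    rw [hPz, map_mul, map_mul, map_pow, hunit _ hd, one_mul]
    exact lt_of_le_of_lt (mul_le_of_le_one_left' (pow_le_one' hD1 _)) h

end Pool.Agent.K1H4.SC
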