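import Pool.Agent.K1H4.SC.Main2

/-!
# Twists by rotations over the larger field
-/

set_option autoImplicit false
set_option linter.overlappingInstances false

namespace Pool.Agent.K1H4.SC

open Pool.Agent.Y157.PS Polynomial

variable {A' k' F₀ Ω : Type} [CommRing A'] [IsDomain A'] [IsDiscreteValuationRing A']
  [IsAdicComplete (IsLocalRing.maximalIdeal A') A'] [Finite (IsLocalRing.ResidueField A')]
  [Field k'] [CharZero k'] [Algebra A' k'] [IsFractionRing A' k'] [Field F₀] [Field Ω]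
  [Algebra F₀ Ω] [Algebra k' Ω] [IsAlgClosed Ω] [Algebra.IsAlgebraic F₀ Ω]

theorem alg_up {k' F₀ Ω : Type} [Field k'] [Field F₀] [Field Ω] [Algebra F₀ Ω] [Algebra k' Ω]
    [Algebra.IsAlgebraic F₀ Ω] (F : IntermediateField k' Ω)
    (h : F = IntermediateField.adjoin k' (Set.range (algebraMap F₀ Ω))) :
    Algebra.IsAlgebraic F Ω := by
  have hC : Comp F₀ F := comp_of F h
  refine ⟨fun z => ?_⟩
  obtain ⟨p, hp0, hp⟩ := (Algebra.IsAlgebraic.isAlgebraic (R := F₀) z)
  let g : F₀ →+* F :=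
    { toFun := fun a => ⟨algebraMap F₀ Ω a, hC.inc a⟩
      map_one' := Subtype.ext (by simp)
      map_mul' := fun a b => Subtype.ext (by simp)
      map_zero' := Subtype.ext (by simp)
      map_add' := fun a b => Subtype.ext (by simp) }
  refine ⟨p.map g, (Polynomial.map_ne_zero_iff g.injective).2 hp0, ?_⟩
  rw [aeval_def, eval₂_map]
  exact hp

theorem rot_unique {ℓ : ℕ} [Fact ℓ.Prime] (hℓ : IsUnit (ℓ : A')) {j : ℕ} (hj : 1 ≤ j) (g : A'[X])
    (hlc : IsUnit g.leadingCoeff)
    (hs : ((expand A' (ℓ ^ j) g).map (IsLocalRing.residue A')).Separable)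
    (h3 : 3 ≤ (expand A' (ℓ ^ j) g).natDegree)
    (ϖ : A') (hϖ : Irreducible ϖ) (a d : k') (α : ℤ) (hα : ¬ ((ℓ ^ j : ℕ) : ℤ) ∣ α) (t : A')
    (ht : IsUnit t) (ha : a = algebraMap A' k' t * algebraMap A' k' ϖ ^ α) (hd0 : d ≠ 0)
    (x y : Ω) (hx : Transcendental k' x)
    (hxy : algebraMap k' Ω d * y ^ ℓ =
      aeval (algebraMap k' Ω a * x ^ (ℓ ^ j)) (g.map (algebraMap A' k')))
    (hF : IntermediateField.adjoin k' {x, y} =
      IntermediateField.adjoin k' (Set.range (algebraMap F₀ Ω))) :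
    Unique1 ℓ k' (IntermediateField.adjoin k' {x, y}) Ω
      (fun V => x ∈ V.nonunits ∨ x⁻¹ ∈ V.nonunits) := by
  have halgF : Algebra.IsAlgebraic (IntermediateField.adjoin k' {x, y}) Ω := alg_up _ hF
  set F : IntermediateField k' Ω := IntermediateField.adjoin k' {x, y} with hFdef
  let x' : F := ⟨x, IntermediateField.subset_adjoin _ _ (by simp)⟩
  let y' : F := ⟨y, IntermediateField.subset_adjoin _ _ (by simp)⟩
  have hx' : Transcendental k' x' := by
    intro h1
    exact hx (h1.algebraMap (A := Ω))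
  have hxy' : algebraMap k' F d * y' ^ ℓ =
      aeval (algebraMap k' F a * x' ^ (ℓ ^ j)) (g.map (algebraMap A' k')) := by
    apply Subtype.ext
    have h1 := aeval_algebraMap_apply Ω (algebraMap k' F a * x' ^ (ℓ ^ j)) (g.map (algebraMap A' k'))
    exact hxy.trans h1
  have hF' : IntermediateField.adjoin k' {x', y'} = (⊤ : IntermediateField k' F) :=
    adjoin_top x y x' y' rfl rfl
  intro M hM S hS hcompat
  obtain ⟨W, ⟨⟨g1, g2, g3⟩, g4⟩, g5⟩ := Pool.Agent.R925.L.padicRM hℓ hj g hlc hs h3 ϖ hϖ a d α hα t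
    ht ha hd0 x' y' hx' hxy' hF' M hM S hS hcompat
  have hn : ∀ (V : ValuationSubring Ω) (z : F),
      algebraMap F M z ∈ (V.comap (algebraMap M Ω)).nonunits ↔ (z : Ω) ∈ V.nonunits := by
    intro V z
    exact non_incl (algebraMap M Ω) V (algebraMap F M z)
  refine ⟨W, g1, fun V hV => ?_, g3, g4, fun V hV hQ hS' z hz => ?_⟩
  · subst hV
    rw [hn, hn] at g2
    exact g2
  · have h1 := g5 (V.comap (algebraMap M Ω)) (fun c => hV c) (by
      rw [hn, hn]
      rcases hQ with h | h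
      · exact Or.inl h
      · exact Or.inr (Or.inl h)) (fun σ w hw => hS' σ w hw) z hz
    exact h1

end Pool.Agent.K1H4.SC
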