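import Pool.Agent.Y157.PS.Stm3

/-!
# The maximal unramified pro-`ℓ` extension depends only on the subfield of `Ω`
-/

set_option autoImplicit false

namespace Pool.Agent.K1H4.SC

open Pool.Agent.Y157.PS

section tr

variable {K1 K2 Ω : Type} [Field K1] [Field K2] [Field Ω] [Algebra K1 Ω] [Algebra K2 Ω]

/-- `K1` and `K2` have the same image in `Ω` -/
def Same (K1 K2 Ω : Type) [Field K1] [Field K2] [Field Ω] [Algebra K1 Ω] [Algebra K2 Ω] : Prop :=
  ∀ z : Ω, (∃ a : K1, algebraMap K1 Ω a = z) ↔ ∃ a : K2, algebraMap K2 Ω a = z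

theorem Same.symm (h : Same K1 K2 Ω) : Same K2 K1 Ω := fun z => (h z).symm

/-- the isomorphism `K1 → K2` -/
theorem Same.equiv (h : Same K1 K2 Ω) :
    ∃ e : K1 ≃+* K2, ∀ a, algebraMap K2 Ω (e a) = algebraMap K1 Ω a := by
  have hg : ∀ a : K1, ∃ b : K2, algebraMap K2 Ω b = algebraMap K1 Ω a := fun a => (h _).1 ⟨a, rfl⟩
  choose g hg using hg
  let φ : K1 →+* K2 :=
    { toFun := g
      map_one' := (algebraMap K2 Ω).injective (by rw [hg, map_one, map_one])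
      map_mul' := fun a b => (algebraMap K2 Ω).injective (by rw [hg, map_mul, map_mul, hg, hg])
      map_zero' := (algebraMap K2 Ω).injective (by rw [hg, map_zero, map_zero])
      map_add' := fun a b => (algebraMap K2 Ω).injective (by rw [hg, map_add, map_add, hg, hg]) }
  have hg' : Function.Surjective φ := by
    intro b
    obtain ⟨a, ha⟩ := (h _).2 ⟨b, rfl⟩
    refine ⟨a, (algebraMap K2 Ω).injective ?_⟩
    show algebraMap K2 Ω (g a) = _
    rw [hg, ha]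
  exact ⟨RingEquiv.ofBijective φ ⟨φ.injective, hg'⟩, fun a => hg a⟩

/-- the same subfield of `Ω`, as an extension of `K2` -/
def tr (h : Same K1 K2 Ω) (L : IntermediateField K1 Ω) : IntermediateField K2 Ω :=
  { L.toSubfield with
    algebraMap_mem' := by
      intro a
      obtain ⟨b, hb⟩ := (h _).2 ⟨a, rfl⟩
      rw [← hb]
      exact L.algebraMap_mem b }

theorem mem_tr (h : Same K1 K2 Ω) (L : IntermediateField K1 Ω) (z : Ω) : z ∈ tr h L ↔ z ∈ L :=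
  Iff.rfl

theorem lev_tr (h : Same K1 K2 Ω) {ℓ : ℕ} (L : IntermediateField K1 Ω) (hL : Lev ℓ L) :
    Lev ℓ (tr h L) := by
  obtain ⟨e, he⟩ := h.equiv
  let f : L ≃+* tr h L :=
    { toFun := fun z => ⟨z.1, z.2⟩
      invFun := fun z => ⟨z.1, z.2⟩
      left_inv := fun _ => rfl
      right_inv := fun _ => rfl
      map_mul' := fun _ _ => rfl
      map_add' := fun _ _ => rfl }
  have hcomp : RingHom.comp (algebraMap K2 (tr h L)) (e : K1 →+* K2) =
      (f : L →+* tr h L).comp (algebraMap K1 L) := by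
    ext a
    exact he a
  have hcomp2 : (algebraMap K2 (tr h L)).comp (e : K1 →+* K2) =
      (f : L →+* tr h L).comp (algebraMap K1 L) := hcomp
  obtain ⟨hfin, hgal, m, hm⟩ := hL
  have hr : Module.finrank K2 (tr h L) = Module.finrank K1 L :=
    (Algebra.finrank_eq_of_equiv_equiv e f hcomp2).symm
  refine ⟨?_, ?_, m, ?_⟩
  · have h1 : 0 < Module.finrank K1 L := Module.finrank_pos
    rw [← hr] at h1
    exact Module.finite_of_finrank_pos h1
  · exact IsGalois.of_equiv_equiv (f := e) (g := f) hcomp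
  · rw [hr, hm]

theorem unr_tr (h : Same K1 K2 Ω) {κ1 κ2 : Type} [Field κ1] [Field κ2] [Algebra κ1 Ω]
    [Algebra κ2 Ω] (hκ : ∀ W : ValuationSubring Ω, (∀ c : κ2, algebraMap κ2 Ω c ∈ W) →
      ∀ c : κ1, algebraMap κ1 Ω c ∈ W) (L : IntermediateField K1 Ω) (hL : Unr κ1 K1 Ω L) :
    Unr κ2 K2 Ω (tr h L) := by
  intro W hW z hz hz0
  obtain ⟨t, ht0, ht⟩ := hL W (hκ W hW) z hz hz0
  obtain ⟨t', ht'⟩ := (h _).1 ⟨t, rfl⟩
  refine ⟨t', ?_, ?_⟩
  · rintro rfl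
    rw [map_zero] at ht'
    exact ht0 ((map_eq_zero _).1 ht'.symm)
  · rw [ht']
    exact ht

theorem max_le (h : Same K1 K2 Ω) {κ1 κ2 : Type} [Field κ1] [Field κ2] [Algebra κ1 Ω]
    [Algebra κ2 Ω] (hκ : ∀ W : ValuationSubring Ω, (∀ c : κ2, algebraMap κ2 Ω c ∈ W) →
      ∀ c : κ1, algebraMap κ1 Ω c ∈ W) (ℓ : ℕ) (z : Ω) (hz : z ∈ maxPro ℓ κ1 K1 Ω) :
    z ∈ maxPro ℓ κ2 K2 Ω := by
  have h1 : maxPro ℓ κ1 K1 Ω ≤ tr h.symm (maxPro ℓ κ2 K2 Ω) := by
    refine iSup_le ?_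
    rintro ⟨L, hL1, hL2⟩
    have h2 : tr h L ≤ maxPro ℓ κ2 K2 Ω :=
      le_iSup (fun L : {L : IntermediateField K2 Ω // Lev ℓ L ∧ Unr κ2 K2 Ω L} => L.1)
        ⟨tr h L, lev_tr h L hL1, unr_tr h hκ L hL2⟩
    intro w hw
    exact h2 hw
  exact h1 hz

theorem max_iff (h : Same K1 K2 Ω) {κ1 κ2 : Type} [Field κ1] [Field κ2] [Algebra κ1 Ω]
    [Algebra κ2 Ω] (hκ : ∀ W : ValuationSubring Ω, (∀ c : κ2, algebraMap κ2 Ω c ∈ W) ↔
      ∀ c : κ1, algebraMap κ1 Ω c ∈ W) (ℓ : ℕ) (z : Ω) :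
    z ∈ maxPro ℓ κ1 K1 Ω ↔ z ∈ maxPro ℓ κ2 K2 Ω :=
  ⟨max_le h (fun W => (hκ W).1) ℓ z, max_le h.symm (fun W => (hκ W).2) ℓ z⟩

end tr

end Pool.Agent.K1H4.SC
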